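import Pool.Agent.Helper87.CMC.LoopA
import Pool.Agent.N343.TC.Stm

/-!
# Project TC (helper343), leaf WA: the weighted Wiener algebra of an annulus
-/

set_option autoImplicit false

open Filter Topology Metric
open scoped ComplexConjugate

namespace Pool.Agent.N565.TC

open Pool.Agent.Helper87.CMC (LaG LaTy laW laN laN_single laMap laMap_single laMap_bound)
open Pool.Agent.N343.TC

/-- the weighted Wiener algebra, with norms -/
structure WN (B : Type) [NormedCommRing B] [NormedAlgebra ℂ B] where
  τ : ℤ → B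
  τ_zero : τ 0 = 1
  τ_add : ∀ m n, τ (m + n) = τ m * τ n
  τ_norm : ∀ n, ‖τ n‖ = 2 ^ n.natAbs
  ind : ∀ p : B → Prop, IsClosed {x | p x} → (∀ x y, p x → p y → p (x + y)) →
    (∀ (c : ℂ) n, p (c • τ n)) → ∀ x, p x
  exists_ext : ∀ (φ : ℂ →+* ℂ) (F : Type) [NormedAddCommGroup F] [NormedSpace ℂ F]
    [CompleteSpace F] (v : ℤ → F), (∀ c, ‖φ c‖ = ‖c‖) →
    (∀ n, ‖v n‖ ≤ 2 ^ n.natAbs) → ∃ U : B →SL[φ] F, (∀ n, U (τ n) = v n) ∧ ∀ x, ‖U x‖ ≤ ‖x‖

theorem exists_WN : ∃ (B : Type) (_ : NormedCommRing B) (_ : NormedAlgebra ℂ B)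
    (_ : CompleteSpace B), Nonempty (WN B) := by
  classical
  let B := UniformSpace.Completion LaTy
  let ι : LaG →ₐ[ℂ] B :=
    { (UniformSpace.Completion.coeRingHom : LaTy →+* B) with
      commutes' := fun c => rfl }
  have hdense : DenseRange ι := UniformSpace.Completion.denseRange_coe (α := LaTy)
  have hnorm : ∀ P : LaG, ‖ι P‖ = laN P := fun P =>
    UniformSpace.Completion.norm_coe (E := LaTy) P
  refine ⟨B, inferInstance, inferInstance, inferInstance, ⟨{
    τ := fun n => ι (AddMonoidAlgebra.single n 1)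
    τ_zero := ?_
    τ_add := ?_
    τ_norm := ?_
    ind := ?_
    exists_ext := ?_ }⟩⟩
  · exact map_one ι
  · intro m n
    rw [← map_mul, AddMonoidAlgebra.single_mul_single, one_mul]
  · intro n
    rw [hnorm, laN_single]
    simp [laW]
  · intro p hc hadd hs
    refine isClosed_property hdense hc ?_
    intro P
    induction P using AddMonoidAlgebra.induction_linear with
    | zero =>
      have := hs 0 0
      rw [zero_smul] at this
      rwa [map_zero]
    | add f g hf hg =>
      rw [map_add]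
      exact hadd _ _ hf hg
    | single n a =>
      have h1 : (AddMonoidAlgebra.single n a : LaG) = a • AddMonoidAlgebra.single n (1 : ℂ) := by
        rw [AddMonoidAlgebra.smul_single, smul_eq_mul, mul_one]
      rw [h1, map_smul]
      exact hs a n
  · intro φ F _ _ _ v hφ hv
    have hv' : ∀ n, ‖v n‖ ≤ 1 * 2 ^ n.natAbs := fun n => by rw [one_mul]; exact hv n
    have h0 : ∀ P : LaG, (laMap φ v).extendOfNorm ι.toLinearMap (ι P) = laMap φ v P := fun P =>
      LinearMap.extendOfNorm_eq (f := laMap φ v) (e := ι.toLinearMap) hdense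
        ⟨1, fun P => by
          have h2 : ‖ι.toLinearMap P‖ = laN P := hnorm P
          rw [h2]
          exact laMap_bound φ v 1 hφ hv' P⟩ P
    refine ⟨(laMap φ v).extendOfNorm ι.toLinearMap, fun n => ?_, fun x => ?_⟩
    · rw [h0, laMap_single, map_one, one_smul]
    · refine isClosed_property (p := fun x => ‖(laMap φ v).extendOfNorm ι.toLinearMap x‖ ≤ ‖x‖)
        hdense (isClosed_le (ContinuousLinearMap.continuous _).norm continuous_norm) ?_ x
      intro P
      rw [h0, hnorm]
      have := laMap_bound φ v 1 hφ hv' P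
      rwa [one_mul] at this

variable {B : Type} [NormedCommRing B] [NormedAlgebra ℂ B]

lemma WN.ind_eq (W : WN B) {F : Type} [TopologicalSpace F] [T2Space F] [Add F] (f g : B → F)
    (hf : Continuous f) (hg : Continuous g) (haf : ∀ x y, f (x + y) = f x + f y)
    (hag : ∀ x y, g (x + y) = g x + g y)
    (h : ∀ (c : ℂ) n, f (c • W.τ n) = g (c • W.τ n)) : ∀ x, f x = g x := by
  refine W.ind (fun x => f x = g x) (isClosed_eq hf hg) ?_ h
  intro x y hx hy
  rw [haf, hag, hx, hy]

lemma WN.ind2 (W : WN B) {G : Type} [TopologicalSpace G] [T2Space G] [Add G] (f g : B → B → G)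
    (h1 : ∀ y, Continuous fun x => f x y) (h2 : ∀ y, Continuous fun x => g x y)
    (h3 : ∀ x, Continuous fun y => f x y) (h4 : ∀ x, Continuous fun y => g x y)
    (h5 : ∀ x x' y, f (x + x') y = f x y + f x' y) (h6 : ∀ x x' y, g (x + x') y = g x y + g x' y)
    (h7 : ∀ x y y', f x (y + y') = f x y + f x y') (h8 : ∀ x y y', g x (y + y') = g x y + g x y')
    (h9 : ∀ (c d : ℂ) m n, f (c • W.τ m) (d • W.τ n) = g (c • W.τ m) (d • W.τ n)) :
    ∀ x y, f x y = g x y := by
  intro x y
  refine W.ind_eq (fun x => f x y) (fun x => g x y) (h1 y) (h2 y) (fun x x' => h5 x x' y)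
    (fun x x' => h6 x x' y) ?_ x
  intro c m
  exact W.ind_eq (fun y => f (c • W.τ m) y) (fun y => g (c • W.τ m) y) (h3 _) (h4 _)
    (fun y y' => h7 _ y y') (fun y y' => h8 _ y y') (fun d n => h9 c d m n) y

theorem exists_WA [CompleteSpace B] (W : WN B) : Nonempty (WA B) := by
  classical
  have hid : ∀ c : ℂ, ‖RingHom.id ℂ c‖ = ‖c‖ := fun c => rfl
  have hst : ∀ c : ℂ, ‖starRingEnd ℂ c‖ = ‖c‖ := fun c => Complex.norm_conj c
  have hone : ∀ n : ℤ, (1 : ℝ) ≤ 2 ^ n.natAbs := fun n => one_le_pow₀ (by norm_num)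
  have hmul : ∀ (c d : ℂ) m n, (c • W.τ m) * (d • W.τ n) = (c * d) • W.τ (m + n) := by
    intro c d m n
    rw [smul_mul_smul_comm, W.τ_add]
  -- the projection
  obtain ⟨P, hP, hPn⟩ := W.exists_ext (RingHom.id ℂ) B (fun n => if 1 ≤ n then W.τ n else 0) hid
    (fun n => by
      by_cases h : 1 ≤ n
      · rw [if_pos h]; exact (W.τ_norm n).le
      · rw [if_neg h, norm_zero]; positivity)
  have hPs : ∀ (c : ℂ) n, P (c • W.τ n) = c • (if 1 ≤ n then W.τ n else 0) := fun c n => by
    rw [map_smulₛₗ, hP]; rfl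
  -- the reflection
  obtain ⟨σ, hσ, hσn⟩ := W.exists_ext (starRingEnd ℂ) B (fun n => W.τ (-n)) hst (fun n => by
    have := W.τ_norm (-n)
    rw [Int.natAbs_neg] at this
    exact this.le)
  have hσs : ∀ (c : ℂ) n, σ (c • W.τ n) = conj c • W.τ (-n) := fun c n => by
    rw [map_smulₛₗ, hσ]
  -- the constant term
  obtain ⟨c0, hc0, hc0n⟩ := W.exists_ext (RingHom.id ℂ) ℂ (fun n => if n = 0 then 1 else 0) hid
    (fun n => by
      by_cases h : n = 0
      · rw [if_pos h, h]; simp
      · rw [if_neg h, norm_zero]; positivity)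
  have hc0s : ∀ (c : ℂ) n, c0 (c • W.τ n) = c * (if n = 0 then 1 else 0) := fun c n => by
    rw [map_smulₛₗ, hc0]; simp
  -- the values on the circle
  have hE := fun (z : ℂ) (hz : ‖z‖ = 1) => W.exists_ext (RingHom.id ℂ) ℂ (fun n => z ^ n) hid
    (fun n => by
      rw [norm_zpow, hz, one_zpow]
      exact hone n)
  choose E hE hEn using hE
  have hEs : ∀ z hz (c : ℂ) n, E z hz (c • W.τ n) = c * z ^ n := fun z hz c n => by
    rw [map_smulₛₗ, hE]; rfl
  have hEmul : ∀ z hz x y, E z hz (x * y) = E z hz x * E z hz y := by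
    intro z hz
    have hz0 : z ≠ 0 := by
      rintro rfl
      rw [norm_zero] at hz
      exact zero_ne_one hz
    refine W.ind2 (fun x y => E z hz (x * y)) (fun x y => E z hz x * E z hz y) ?_ ?_ ?_ ?_ ?_ ?_
      ?_ ?_ ?_
    · intro y; fun_prop
    · intro y; fun_prop
    · intro y; fun_prop
    · intro y; fun_prop
    · intro x x' y; simp only [map_add, add_mul]
    · intro x x' y; simp only [map_add, add_mul]
    · intro x x' y; simp only [map_add, mul_add]
    · intro x x' y; simp only [map_add, mul_add]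
    · intro c d m n
      simp only [hmul, hEs]
      rw [zpow_add₀ hz0]
      ring
  have hEone : ∀ z hz, E z hz 1 = 1 := by
    intro z hz
    rw [← W.τ_zero, hE, zpow_zero]
  let EA : ∀ z : ℂ, ‖z‖ = 1 → (B →ₐ[ℂ] ℂ) := fun z hz =>
    AlgHom.ofLinearMap (E z hz : B →ₗ[ℂ] ℂ) (hEone z hz) (hEmul z hz)
  have hEA : ∀ z hz x, EA z hz x = E z hz x := fun z hz x => rfl
  -- the values in the disc
  have hF := fun (z : ℂ) (hz : ‖z‖ < 2) => W.exists_ext (RingHom.id ℂ) ℂ
    (fun n => if 1 ≤ n then z ^ n.toNat else 0) hid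
    (fun n => by
      by_cases h : 1 ≤ n
      · rw [if_pos h, norm_pow]
        have : n.toNat = n.natAbs := by omega
        rw [this]
        exact pow_le_pow_left₀ (norm_nonneg z) hz.le _
      · rw [if_neg h, norm_zero]; positivity)
  choose F hF hFn using hF
  have hFs : ∀ z hz (c : ℂ) n, F z hz (c • W.τ n) = c * (if 1 ≤ n then z ^ n.toNat else 0) :=
    fun z hz c n => by
      rw [map_smulₛₗ, hF]; rfl
  let pf : B → ℂ → ℂ := fun x z => if hz : ‖z‖ < 2 then F z hz x else 0
  have hpf : ∀ x z (hz : ‖z‖ < 2), pf x z = F z hz x := fun x z hz => dif_pos hz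
  have hpfn : ∀ x z, z ∈ ball (0 : ℂ) 2 → ‖pf x z‖ ≤ ‖x‖ := by
    intro x z hz
    rw [mem_ball_zero_iff] at hz
    rw [hpf x z hz]
    exact hFn z hz x
  have hpfsub : ∀ x y z, z ∈ ball (0 : ℂ) 2 → pf (x - y) z = pf x z - pf y z := by
    intro x y z hz
    rw [mem_ball_zero_iff] at hz
    rw [hpf _ z hz, hpf _ z hz, hpf _ z hz, map_sub]
  have hpfadd : ∀ x y z, z ∈ ball (0 : ℂ) 2 → pf (x + y) z = pf x z + pf y z := by
    intro x y z hz
    rw [mem_ball_zero_iff] at hz
    rw [hpf _ z hz, hpf _ z hz, hpf _ z hz, map_add]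
  have hpfs : ∀ (c : ℂ) n z, z ∈ ball (0 : ℂ) 2 → pf (c • W.τ n) z =
      c * (if 1 ≤ n then z ^ n.toNat else 0) := by
    intro c n z hz
    rw [mem_ball_zero_iff] at hz
    rw [hpf _ z hz, hFs]
  have hpfd : ∀ x, DifferentiableOn ℂ (pf x) (ball 0 2) := by
    refine W.ind (fun x => DifferentiableOn ℂ (pf x) (ball 0 2)) ?_ ?_ ?_
    · rw [← isSeqClosed_iff_isClosed]
      intro u x hu hux
      have hunif : TendstoUniformlyOn (fun j => pf (u j)) (pf x) atTop (ball 0 2) := by
        rw [Metric.tendstoUniformlyOn_iff]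
        intro ε hε
        obtain ⟨N, hN⟩ := Metric.tendsto_atTop.1 hux ε hε
        filter_upwards [eventually_ge_atTop N] with j hj z hz
        rw [dist_eq_norm, ← hpfsub x (u j) z hz]
        refine (hpfn _ z hz).trans_lt ?_
        rw [← dist_eq_norm, dist_comm]
        exact hN j hj
      exact hunif.tendstoLocallyUniformlyOn.differentiableOn
        (Eventually.of_forall fun j => hu j) isOpen_ball
    · intro x y hx hy
      exact (hx.add hy).congr fun z hz => hpfadd x y z hz
    · intro c n
      have h1 : DifferentiableOn ℂ (fun z : ℂ => c * (if 1 ≤ n then z ^ n.toNat else 0))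
          (ball 0 2) := by
        by_cases h : 1 ≤ n
        · simp only [if_pos h]
          fun_prop
        · simp only [if_neg h]
          fun_prop
      exact h1.congr fun z hz => hpfs c n z hz
  refine ⟨{
    T := W.τ 1
    S := W.τ (-1)
    ST := ?_
    one_norm := ?_
    T_norm := ?_
    S_norm := ?_
    P := (P : B →ₗ[ℂ] B)
    P_norm := hPn
    P_P := ?_
    P_T := ?_
    P_S := ?_
    P_one := ?_
    st := σ
    st_add := fun x y => map_add _ _ _
    st_smul := fun c x => map_smulₛₗ σ c x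
    st_mul := ?_
    st_st := ?_
    st_T := ?_
    st_norm := hσn
    P_st_P := ?_
    c0 := c0
    dec := ?_
    ev := fun z => if hz : ‖z‖ = 1 then EA z hz else EA 1 norm_one
    ev_T := ?_
    ev_st := ?_
    pf := pf
    pf_diff := hpfd
    pf_bd := hpfn
    pf_sub := hpfsub
    pf_smulT := ?_
    pf_ev := ?_ }⟩
  · rw [← W.τ_add, neg_add_cancel, W.τ_zero]
  · rw [← W.τ_zero, W.τ_norm]; simp
  · rw [W.τ_norm]; simp
  · rw [W.τ_norm]; simp
  · intro x
    show P (P x) = P x
    refine W.ind_eq (fun x => P (P x)) (fun x => P x) (P.continuous.comp P.continuous)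
      P.continuous (fun x y => by rw [map_add, map_add]) (fun x y => map_add _ _ _) ?_ x
    intro c n
    simp only [hPs]
    by_cases h : 1 ≤ n
    · rw [if_pos h, hPs, if_pos h]
    · rw [if_neg h, smul_zero, map_zero]
  · show P (W.τ 1) = W.τ 1
    rw [hP, if_pos le_rfl]
  · show P (W.τ (-1)) = 0
    rw [hP, if_neg (by norm_num)]
  · show P 1 = 0
    rw [← W.τ_zero, hP, if_neg (by norm_num)]
  · refine W.ind2 (fun x y => σ (x * y)) (fun x y => σ x * σ y) ?_ ?_ ?_ ?_ ?_ ?_ ?_ ?_ ?_
    · intro y; fun_prop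
    · intro y; fun_prop
    · intro y; fun_prop
    · intro y; fun_prop
    · intro x x' y; simp only [map_add, add_mul]
    · intro x x' y; simp only [map_add, add_mul]
    · intro x x' y; simp only [map_add, mul_add]
    · intro x x' y; simp only [map_add, mul_add]
    · intro c d m n
      simp only [hmul, hσs, neg_add, map_mul]
  · refine W.ind_eq (fun x => σ (σ x)) (fun x => x) (σ.continuous.comp σ.continuous) continuous_id
      (fun x y => by simp only [map_add]) (fun x y => rfl) ?_
    intro c n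
    simp only [hσs, neg_neg, Complex.conj_conj]
  · rw [hσ]
  · intro x
    show P (σ (P x)) = 0
    refine W.ind_eq (fun x => P (σ (P x))) (fun _ => 0)
      (P.continuous.comp (σ.continuous.comp P.continuous)) continuous_const
      (fun x y => by simp only [map_add]) (fun x y => by simp) ?_ x
    intro c n
    simp only [hPs]
    by_cases h : 1 ≤ n
    · rw [if_pos h, hσs, hPs, if_neg (by omega), smul_zero]
    · rw [if_neg h, smul_zero, map_zero, map_zero]
  · intro x
    show x = P x + c0 x • (1 : B) + σ (P (σ x))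
    refine W.ind_eq (fun x => x) (fun x => P x + c0 x • (1 : B) + σ (P (σ x))) continuous_id
      (by fun_prop) (fun x y => rfl)
      (fun x y => by simp only [map_add, add_smul]; abel) ?_ x
    intro c n
    simp only [hPs, hc0s, hσs]
    rcases lt_trichotomy n 0 with h | h | h
    · rw [if_neg (by omega), if_neg (by omega), if_pos (by omega), hσs, neg_neg,
        Complex.conj_conj]
      simp
    · subst h
      rw [if_neg (by omega), if_pos rfl, if_neg (by omega), W.τ_zero]
      simp
    · rw [if_pos (by omega), if_neg (by omega), if_neg (by omega)]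
      simp
  · intro z hz
    rw [dif_pos hz, hEA, hE, zpow_one]
  · intro z hz x
    rw [dif_pos hz, hEA, hEA]
    refine W.ind_eq (fun x => E z hz (σ x)) (fun x => conj (E z hz x))
      ((E z hz).continuous.comp σ.continuous) (Complex.continuous_conj.comp (E z hz).continuous)
      (fun x y => by simp only [map_add]) (fun x y => by simp only [map_add]) ?_ x
    intro c n
    simp only [hσs, hEs, map_mul, map_zpow₀]
    congr 1
    rw [zpow_neg, ← inv_zpow]
    congr 1
    rw [Complex.inv_def, Complex.normSq_eq_norm_sq, hz]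
    simp
  · intro c z hz
    rw [hpfs c 1 z hz, if_pos le_rfl]
    simp
  · intro x z hz
    have hz2 : ‖z‖ < 2 := by rw [hz]; norm_num
    show pf x z = (if hz : ‖z‖ = 1 then EA z hz else EA 1 norm_one) (P x)
    rw [dif_pos hz, hEA, hpf x z hz2]
    refine W.ind_eq (fun x => F z hz2 x) (fun x => E z hz (P x)) (F z hz2).continuous
      ((E z hz).continuous.comp P.continuous) (fun x y => by simp only [map_add])
      (fun x y => by simp only [map_add]) ?_ x
    intro c n
    simp only [hFs, hPs]
    by_cases h : 1 ≤ n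
    · rw [if_pos h, if_pos h, hEs]
      congr 1
      obtain ⟨m, rfl⟩ := Int.eq_ofNat_of_zero_le (by omega : 0 ≤ n)
      simp
    · rw [if_neg h, if_neg h, smul_zero, map_zero, mul_zero]

/-- **The weighted Wiener algebra exists.** -/
theorem main : S_WA := by
  obtain ⟨B, h1, h2, h3, ⟨W⟩⟩ := exists_WN
  exact ⟨B, h1, h2, h3, exists_WA W⟩

end Pool.Agent.N565.TC
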